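import Pool.Agent.H71.PLI2

/-!
# MP_d888c1_al, Q1: the wreath products `Z wr Z^n` in the groups of PL homeomorphisms of cubes
-/

set_option autoImplicit false

namespace Pool.Agent.Results.MP_d888c1_al.WreathInPLCube

open Set

/-- The unit cube `[0,1]^m`. -/
abbrev Cube (m : ℕ) : Type := Icc (0 : Fin m → ℝ) 1

/-- `g` is piecewise linear: it is continuous, and the cube is covered by finitely many convex polyhedra,
each given by finitely many inequalities `0 ≤ l x` with `l` affine, such that `g` agrees on each of them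
with an affine map. -/
def IsPL {m : ℕ} (g : Cube m → Cube m) : Prop :=
  Continuous g ∧ ∃ (k : ℕ) (L : Fin k → Finset ((Fin m → ℝ) →ᵃ[ℝ] ℝ))
    (A : Fin k → ((Fin m → ℝ) →ᵃ[ℝ] (Fin m → ℝ))),
    (∀ x : Cube m, ∃ i, ∀ l ∈ L i, 0 ≤ l x.1) ∧
    ∀ i, ∀ x : Cube m, (∀ l ∈ L i, 0 ≤ l x.1) → (g x).1 = A i x.1

/-- The restricted wreath product `ZW_n = Z wr Z^n`: a finitely supported family of integers indexed by
`Z^n`, and an element of `Z^n`. -/
@[ext] structure ZW (n : ℕ) where
  base : (Fin n → ℤ) →₀ ℤ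
  top : Fin n → ℤ

/-- The translated family `t ↦ b (t + r)`. -/
def shift {n : ℕ} (r : Fin n → ℤ) (b : (Fin n → ℤ) →₀ ℤ) : (Fin n → ℤ) →₀ ℤ :=
  b.equivMapDomain (Equiv.subRight r)

theorem shift_apply {n : ℕ} (r : Fin n → ℤ) (b : (Fin n → ℤ) →₀ ℤ) (t : Fin n → ℤ) :
    shift r b t = b (t + r) := rfl

/-- The product `((a_t), r) ((b_t), s) = ((a_t b_{tr}), r s)`, written additively in the components. -/
noncomputable instance (n : ℕ) : Mul (ZW n) := ⟨fun x y => ⟨x.base + shift x.top y.base, x.top + y.top⟩⟩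

instance (n : ℕ) : One (ZW n) := ⟨⟨0, 0⟩⟩

noncomputable instance (n : ℕ) : Inv (ZW n) := ⟨fun x => ⟨-shift (-x.top) x.base, -x.top⟩⟩

theorem mul_base {n : ℕ} (x y : ZW n) : (x * y).base = x.base + shift x.top y.base := rfl
theorem mul_top {n : ℕ} (x y : ZW n) : (x * y).top = x.top + y.top := rfl
theorem one_base {n : ℕ} : (1 : ZW n).base = 0 := rfl
theorem one_top {n : ℕ} : (1 : ZW n).top = 0 := rfl
theorem inv_base {n : ℕ} (x : ZW n) : (x⁻¹).base = -shift (-x.top) x.base := rfl
theorem inv_top {n : ℕ} (x : ZW n) : (x⁻¹).top = -x.top := rfl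

theorem zw_assoc {n : ℕ} (x y z : ZW n) : x * y * z = x * (y * z) := by
  ext t
  · simp only [mul_base, mul_top, Finsupp.add_apply, shift_apply]
    rw [add_assoc, add_assoc t]
  · simp only [mul_top]
    rw [add_assoc]

theorem zw_one_mul {n : ℕ} (x : ZW n) : 1 * x = x := by
  ext t
  · simp only [mul_base, one_base, one_top, shift_apply, add_zero, zero_add]
  · simp only [mul_top, one_top, zero_add]

theorem zw_inv_mul {n : ℕ} (x : ZW n) : x⁻¹ * x = 1 := by
  ext t
  · simp only [mul_base, inv_base, inv_top, one_base, neg_add_cancel]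
  · simp only [mul_top, inv_top, one_top, neg_add_cancel]

noncomputable instance (n : ℕ) : Group (ZW n) := Group.ofLeftAxioms zw_assoc zw_one_mul zw_inv_mul

open Pool.Agent.H71.PLI

/-- For every `n` and every `m ≥ 2` the group `ZW_n = Z wr Z^n` embeds in `PL(I^m)`: there is an injective
homomorphism from `ZW_n` to the group of bijections of the cube all of whose values are piecewise linear
homeomorphisms. In particular `ZW_n` embeds in `PL(I^(n-1))` for every `n ≥ 3`. -/
theorem result (n m : ℕ) (hm : 2 ≤ m) :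
    ∃ f : ZW n →* Equiv.Perm (Cube m), Function.Injective f ∧ ∀ w : ZW n, IsPL (f w) := by
  obtain ⟨k, rfl⟩ := Nat.exists_eq_add_of_le hm
  obtain ⟨s, hs⟩ := exists_exps n
  have hs' : ∀ c, ev s c = 0 → c = 0 := hs
  let f : ZW n →* Equiv.Perm (Cube (2 + k)) := MonoidHom.mk'
    (fun w => G (ev s w.base * Real.exp (dt s w.top)) (dt s w.top)) (by
      intro x y
      rw [G_mul]
      congr 1
      · rw [mul_base, mul_top, ev_add, dt_add, Real.exp_add, add_mul, ← ev_shift s x.top y.base]
        unfold shift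
        ring
      · rw [mul_top, dt_add])
  refine ⟨f, ?_, fun w => Gf_pieces _ _⟩
  rw [injective_iff_map_eq_one]
  intro w hw
  obtain ⟨h1, h2⟩ := G_eq_one hw
  have h3 : w.base = 0 := by
    apply hs'
    rcases mul_eq_zero.1 h1 with h | h
    · exact h
    · exact absurd h (Real.exp_pos _).ne'
  have h4 : w.top = 0 := by
    by_contra hne
    have h5 : Finsupp.single w.top (1 : ℤ) - Finsupp.single 0 (1 : ℤ) = 0 := by
      apply hs'
      rw [sub_eq_add_neg, ev_add, ← Finsupp.single_neg]
      unfold ev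
      rw [Finsupp.sum_single_index (by simp), Finsupp.sum_single_index (by simp)]
      have h6 : ∑ i, (w.top i : ℝ) * s i = 0 := h2
      rw [h6]
      simp
    have h7 := DFunLike.congr_fun h5 w.top
    rw [Finsupp.sub_apply, Finsupp.single_eq_same, Finsupp.single_eq_of_ne hne] at h7
    simp at h7
  ext t
  · rw [h3]; rfl
  · rw [h4]; rfl

end Pool.Agent.Results.MP_d888c1_al.WreathInPLCube
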